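import Pool.Agent.helper89.ArchZeta.Main2

open MeasureTheory MvPolynomial
open scoped ContDiff

namespace Pool.Agent.Results.MP_cf8c5a_ag.NotAPole

/-- Finitely many polynomials `form i` of degree one in `n` complex variables, together with
positive multiplicities `mult i`. -/
structure MultiArrangement (n : ℕ) where
  /-- number of forms -/
  r : ℕ
  /-- the polynomials of degree one -/
  form : Fin r → MvPolynomial (Fin n) ℂ
  /-- the multiplicities -/
  mult : Fin r → ℕ
  totalDegree_form : ∀ i, (form i).totalDegree = 1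
  mult_pos : ∀ i, 0 < mult i

namespace MultiArrangement

variable {n : ℕ} (A : MultiArrangement n)

/-- The polynomial `f = ∏ f_i ^ b_i`. -/
noncomputable def poly : MvPolynomial (Fin n) ℂ := ∏ i, A.form i ^ A.mult i

/-- The degree `d = ∑ b_i`. -/
def deg : ℕ := ∑ i, A.mult i

/-- The hyperplane `{f_i = 0}`. -/
def hyperplane (i : Fin A.r) : Set (Fin n → ℂ) := {z | eval z (A.form i) = 0}

/-- All hyperplanes pass through one common point. -/
def Central : Prop := ∃ p : Fin n → ℂ, ∀ i, p ∈ A.hyperplane i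

/-- The intersection of all hyperplanes is a single point. -/
def Essential : Prop := ∃ p : Fin n → ℂ, (⋂ i, A.hyperplane i) = {p}

/-- There is an affine-linear change of coordinates `ℂ^n = ℂ^n₁ × ℂ^n₂` with `n₁, n₂ ≥ 1` in which
every hyperplane has the form `H' × ℂ^n₂` or `ℂ^n₁ × H''`. -/
def Decomposable : Prop :=
  ∃ n₁ n₂ : ℕ, 1 ≤ n₁ ∧ 1 ≤ n₂ ∧
    ∃ e : (Fin n → ℂ) ≃ᵃ[ℂ] ((Fin n₁ → ℂ) × (Fin n₂ → ℂ)), ∀ i,
      (∃ H' : Set (Fin n₁ → ℂ), A.hyperplane i = e ⁻¹' (H' ×ˢ Set.univ)) ∨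
      (∃ H'' : Set (Fin n₂ → ℂ), A.hyperplane i = e ⁻¹' (Set.univ ×ˢ H''))

end MultiArrangement

/-- The archimedean zeta integral `Z_{f,φ}(s) = ∫ |f(z)|^{2s} φ(z) dλ(z)` over `ℂ^n`. -/
noncomputable def archZeta {n : ℕ} (f : MvPolynomial (Fin n) ℂ) (φ : (Fin n → ℂ) → ℂ) (s : ℂ) : ℂ :=
  ∫ z : Fin n → ℂ, ((‖eval z f‖ : ℝ) : ℂ) ^ (2 * s) * φ z

/-- `s₀` is a pole of the meromorphic continuation to `ℂ` of `Z`, a function given on the half
plane `Re s > 0`. -/
def IsPole (Z : ℂ → ℂ) (s₀ : ℂ) : Prop :=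
  ∃ G : ℂ → ℂ, Meromorphic G ∧ (∀ s : ℂ, 0 < s.re → G s = Z s) ∧ meromorphicOrderAt G s₀ < 0

/-- `Z`, given on `Re s > 0`, has a meromorphic continuation to a half plane `Re s > c` which
contains `s₀`, and this continuation is holomorphic at `s₀`. -/
def HolomorphicAt (Z : ℂ → ℂ) (s₀ : ℂ) : Prop :=
  ∃ c : ℝ, c < 0 ∧ c < s₀.re ∧ ∃ G : ℂ → ℂ, MeromorphicOn G {s | c < s.re} ∧
    (∀ s : ℂ, 0 < s.re → G s = Z s) ∧ AnalyticAt ℂ G s₀

/-- Uniqueness of continuation: a function holomorphic at `s₀` has no pole there. -/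
theorem HolomorphicAt.not_isPole {Z : ℂ → ℂ} {s₀ : ℂ} (h : HolomorphicAt Z s₀) :
    ¬ IsPole Z s₀ := by
  obtain ⟨c, hc0, hc, G, hG, hGZ, hGa⟩ := h
  rintro ⟨G', hG', hG'Z, hord⟩
  have hD : MeromorphicOn (fun s => G' s - G s) {s | c < s.re} := by
    intro s hs
    exact (hG' s).sub (hG s hs)
  have hconn : IsConnected {s : ℂ | c < s.re} := by
    refine ⟨⟨s₀, hc⟩, (convex_halfSpace_re_gt c).isPreconnected⟩
  have htop1 : meromorphicOrderAt (fun s => G' s - G s) 1 = ⊤ := by
    rw [meromorphicOrderAt_eq_top_iff]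
    have h1 : ∀ᶠ s : ℂ in nhds (1 : ℂ), 0 < s.re :=
      (isOpen_lt continuous_const Complex.continuous_re).mem_nhds (by simp)
    filter_upwards [nhdsWithin_le_nhds h1] with s hs
    rw [hG'Z s hs, hGZ s hs, sub_self]
  have hall := hD.exists_meromorphicOrderAt_ne_top_iff_forall hconn
  have htop : meromorphicOrderAt (fun s => G' s - G s) s₀ = ⊤ := by
    by_contra hne
    have := hall.1 ⟨⟨s₀, hc⟩, hne⟩ ⟨1, by
      change c < (1 : ℂ).re
      rw [Complex.one_re]; linarith⟩
    exact this htop1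
  rw [meromorphicOrderAt_eq_top_iff] at htop
  have hcongr : G' =ᶠ[nhdsWithin s₀ {s₀}ᶜ] G := by
    filter_upwards [htop] with s hs
    exact sub_eq_zero.1 hs
  rw [meromorphicOrderAt_congr hcongr] at hord
  exact absurd hGa.meromorphicOrderAt_nonneg (not_le.2 hord)

/-- The multi-arrangement of `x z (x - z) y^2 (x - y)^4` with `x = X 0`, `y = X 1`, `z = X 2`. -/
noncomputable def ex : MultiArrangement 3 where
  r := 5
  form := ![X 0, X 2, X 0 - X 2, X 1, X 0 - X 1]
  mult := ![1, 1, 1, 2, 4]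
  totalDegree_form := by
    have h : ∀ i j : Fin 3, i ≠ j →
        (X i - X j : MvPolynomial (Fin 3) ℂ).totalDegree = 1 := by
      intro i j hij
      apply le_antisymm
      · refine (totalDegree_sub _ _).trans ?_
        simp [totalDegree_X]
      · rw [Nat.one_le_iff_ne_zero]
        intro h0
        rw [totalDegree_eq_zero_iff_eq_C] at h0
        generalize coeff 0 (X i - X j : MvPolynomial (Fin 3) ℂ) = c at h0
        have e1 : (1 : ℂ) = c := by
          simpa [hij.symm] using congrArg (eval (Pi.single i (1 : ℂ))) h0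
        have e2 : (0 : ℂ) = c := by
          simpa using congrArg (eval (0 : Fin 3 → ℂ)) h0
        exact one_ne_zero (e1.trans e2.symm)
    intro i
    fin_cases i
    · simp [totalDegree_X]
    · simp [totalDegree_X]
    · exact h 0 2 (by decide)
    · simp [totalDegree_X]
    · exact h 0 1 (by decide)
  mult_pos := by
    intro i
    fin_cases i <;> simp

theorem ex_poly : ex.poly = X 0 * X 2 * (X 0 - X 2) * X 1 ^ 2 * (X 0 - X 1) ^ 4 := by
  unfold MultiArrangement.poly ex
  simp [Fin.prod_univ_succ]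
  ring

theorem ex_deg : ex.deg = 9 := by
  unfold MultiArrangement.deg ex
  simp [Fin.sum_univ_succ]

theorem mem_hyp (z : Fin 3 → ℂ) : (z ∈ ex.hyperplane (0 : Fin 5) ↔ z 0 = 0) ∧
    (z ∈ ex.hyperplane (1 : Fin 5) ↔ z 2 = 0) ∧ (z ∈ ex.hyperplane (2 : Fin 5) ↔ z 0 - z 2 = 0) ∧
    (z ∈ ex.hyperplane (3 : Fin 5) ↔ z 1 = 0) ∧
    (z ∈ ex.hyperplane (4 : Fin 5) ↔ z 0 - z 1 = 0) := by
  unfold MultiArrangement.hyperplane ex
  simp

theorem zero_mem (i : Fin ex.r) : (0 : Fin 3 → ℂ) ∈ ex.hyperplane i := by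
  obtain ⟨h0, h1, h2, h3, h4⟩ := mem_hyp 0
  change Fin 5 at i
  fin_cases i
  · exact h0.2 rfl
  · exact h1.2 rfl
  · exact h2.2 (by simp)
  · exact h3.2 rfl
  · exact h4.2 (by simp)

theorem ex_central : ex.Central := ⟨0, zero_mem⟩

theorem ex_essential : ex.Essential := by
  refine ⟨0, ?_⟩
  ext z
  simp only [Set.mem_iInter, Set.mem_singleton_iff]
  constructor
  · intro h
    obtain ⟨h0, h1, -, h3, -⟩ := mem_hyp z
    funext i
    fin_cases i
    · exact h0.1 (h _)
    · exact h3.1 (h _)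
    · exact h1.1 (h _)
  · rintro rfl i
    exact zero_mem i

theorem types_agree {V : Type} {P Q : V → V} {l m k : V → ℂ}
    (hl : ∀ v, l v = l (P v) + l (Q v)) (hm : ∀ v, m v = m (P v) + m (Q v))
    (hk : ∀ v, k v = l v - m v) (hl0 : ∃ v, l v ≠ 0) (hm0 : ∃ v, m v ≠ 0)
    (h1 : (∀ v, l (Q v) = 0) ∨ (∀ v, l (P v) = 0))
    (h2 : (∀ v, m (Q v) = 0) ∨ (∀ v, m (P v) = 0))
    (h3 : (∀ v, k (Q v) = 0) ∨ (∀ v, k (P v) = 0)) :
    ((∀ v, l (Q v) = 0) ∧ (∀ v, m (Q v) = 0)) ∨ ((∀ v, l (P v) = 0) ∧ (∀ v, m (P v) = 0)) := by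
  obtain ⟨v, hv⟩ := hl0
  obtain ⟨w, hw⟩ := hm0
  rcases h1 with h1 | h1 <;> rcases h2 with h2 | h2
  · exact Or.inl ⟨h1, h2⟩
  · rcases h3 with h3 | h3
    · exfalso; apply hw
      have := h3 w
      rw [hk, h1] at this
      rw [hm, h2]; linear_combination -this
    · exfalso; apply hv
      have := h3 v
      rw [hk, h2] at this
      rw [hl, h1]; linear_combination this
  · rcases h3 with h3 | h3
    · exfalso; apply hv
      have := h3 v
      rw [hk, h2] at this
      rw [hl, h1]; linear_combination this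
    · exfalso; apply hw
      have := h3 w
      rw [hk, h1] at this
      rw [hm, h2]; linear_combination -this
  · exact Or.inr ⟨h1, h2⟩

theorem ex_indecomposable : ¬ ex.Decomposable := by
  rintro ⟨n₁, n₂, hn1, hn2, e, he⟩
  have hmap : ∀ v : Fin 3 → ℂ, e v = e.linear v + e 0 := by
    intro v
    have := e.map_vadd (0 : Fin 3 → ℂ) v
    simpa using this
  set L := e.linear with hL
  have key : ∀ i : Fin 5, (∀ v, (L v).1 = 0 → v ∈ ex.hyperplane i) ∨
      (∀ v, (L v).2 = 0 → v ∈ ex.hyperplane i) := by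
    intro i
    rcases he i with ⟨H, h⟩ | ⟨H, h⟩
    · left
      intro v hv
      have h0 := zero_mem i
      rw [h] at h0 ⊢
      simp only [Set.mem_preimage, Set.mem_prod, Set.mem_univ, and_true] at h0 ⊢
      rw [hmap v, Prod.fst_add, hv, zero_add]
      exact h0
    · right
      intro v hv
      have h0 := zero_mem i
      rw [h] at h0 ⊢
      simp only [Set.mem_preimage, Set.mem_prod, Set.mem_univ, true_and] at h0 ⊢
      rw [hmap v, Prod.snd_add, hv, zero_add]
      exact h0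
  set P : (Fin 3 → ℂ) → (Fin 3 → ℂ) := fun v => L.symm ((L v).1, 0) with hP
  set Q : (Fin 3 → ℂ) → (Fin 3 → ℂ) := fun v => L.symm (0, (L v).2) with hQ
  have hPQ : ∀ v, v = P v + Q v := by
    intro v
    rw [hP, hQ]
    simp only
    rw [← map_add]
    simp
  have hPQi : ∀ (j : Fin 3) v, v j = P v j + Q v j := by
    intro j v
    have := congrFun (hPQ v) j
    simpa using this
  have hLP : ∀ v, (L (P v)).2 = 0 := by intro v; simp [hP]
  have hLQ : ∀ v, (L (Q v)).1 = 0 := by intro v; simp [hQ]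
  have key2 : ∀ i : Fin 5, (∀ v, Q v ∈ ex.hyperplane i) ∨ (∀ v, P v ∈ ex.hyperplane i) := by
    intro i
    rcases key i with h | h
    · exact Or.inl fun v => h _ (hLQ v)
    · exact Or.inr fun v => h _ (hLP v)
  have kx := key2 0
  have kz := key2 1
  have kxz := key2 2
  have ky := key2 3
  have kxy := key2 4
  simp only [(mem_hyp _).1] at kx
  simp only [(mem_hyp _).2.1] at kz
  simp only [(mem_hyp _).2.2.1] at kxz
  simp only [(mem_hyp _).2.2.2.1] at ky
  simp only [(mem_hyp _).2.2.2.2] at kxy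
  have hne : ∀ j : Fin 3, ∃ v : Fin 3 → ℂ, v j ≠ 0 := fun j => ⟨fun _ => 1, by simp⟩
  have t1 := types_agree (l := fun v : Fin 3 → ℂ => v 0) (m := fun v => v 2) (k := fun v => v 0 - v 2)
    (hPQi 0) (hPQi 2) (fun _ => rfl) (hne 0) (hne 2) kx kz kxz
  have t2 := types_agree (l := fun v : Fin 3 → ℂ => v 0) (m := fun v => v 1) (k := fun v => v 0 - v 1)
    (hPQi 0) (hPQi 1) (fun _ => rfl) (hne 0) (hne 1) kx ky kxy
  rcases t1 with ⟨a1, a2⟩ | ⟨a1, a2⟩ <;> rcases t2 with ⟨b1, b2⟩ | ⟨b1, b2⟩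
  · -- all forms vanish on the image of `Q`
    have hQ0 : ∀ v, Q v = 0 := by
      intro v; funext j
      fin_cases j
      · exact a1 v
      · exact b2 v
      · exact a2 v
    have h1 := hQ0 (L.symm (0, fun _ => 1))
    simp only [hQ, LinearEquiv.apply_symm_apply, LinearEquiv.map_eq_zero_iff] at h1
    have h2 := congrFun (congrArg Prod.snd h1) ⟨0, hn2⟩
    simp at h2
  · have := hPQi 0 (fun _ => 1)
    rw [a1, b1] at this
    simp at this
  · have := hPQi 0 (fun _ => 1)
    rw [a1, b1] at this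
    simp at this
  · have hP0 : ∀ v, P v = 0 := by
      intro v; funext j
      fin_cases j
      · exact a1 v
      · exact b2 v
      · exact a2 v
    have h1 := hP0 (L.symm (fun _ => 1, 0))
    simp only [hP, LinearEquiv.apply_symm_apply, LinearEquiv.map_eq_zero_iff] at h1
    have h2 := congrFun (congrArg Prod.fst h1) ⟨0, hn1⟩
    simp at h2

open Pool.Agent.helper89.ArchZeta in
theorem archZeta_eq (φ : (Fin 3 → ℂ) → ℂ) (s : ℂ) :
    archZeta ex.poly φ s = U (fun _ => 1) φ s := by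
  unfold archZeta U
  congr 1
  funext p
  rw [ex_poly, one_mul]
  congr 4
  simp only [map_mul, map_pow, map_sub, eval_X]
  unfold ff
  rw [lxy_apply, lxz_apply]
  simp only [lx, ly, lz, ContinuousLinearMap.proj_apply]
  ring

open Pool.Agent.helper89.ArchZeta in
theorem ex_holomorphic {φ : (Fin 3 → ℂ) → ℂ} (hφ : ContDiff ℝ ∞ φ) (hc : HasCompactSupport φ) :
    HolomorphicAt (archZeta ex.poly φ) (-(3 : ℂ) / ex.deg) := by
  have hs0 : (-(3 : ℂ) / ex.deg) = -(1/3) := by rw [ex_deg]; norm_num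
  rw [hs0]
  refine ⟨-(7/20), by norm_num, by norm_num,
    fun s => HH φ s / (3 * (1 + 4 * s) * (2 + 7 * s)), ?_, ?_, ?_⟩
  · intro s hs
    have h1 := (analytic_HH hφ hc s hs).meromorphicAt
    have h2 : MeromorphicAt (fun s : ℂ => 3 * (1 + 4 * s) * (2 + 7 * s)) s := by
      apply AnalyticAt.meromorphicAt
      fun_prop
    exact h1.div h2
  · intro s hs
    change HH φ s / (3 * (1 + 4 * s) * (2 + 7 * s)) = _
    rw [archZeta_eq, ← main_eq hφ hc hs]
    have h1 : (1 + 4 * s) ≠ 0 := by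
      intro h
      have := congrArg Complex.re h
      simp at this
      linarith
    have h2 : (2 + 7 * s) ≠ 0 := by
      intro h
      have := congrArg Complex.re h
      simp at this
      linarith
    exact mul_div_cancel_left₀ _ (mul_ne_zero (mul_ne_zero three_ne_zero h1) h2)
  · apply AnalyticAt.div
    · apply analytic_HH hφ hc
      change -(7/20) < (-(1/3) : ℂ).re
      norm_num
    · fun_prop
    · norm_num

/-- **Negative answer to Q1.** For `f = x z (x - z) y^2 (x - y)^4` on `ℂ^3`, of degree `d = 9`, whose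
hyperplane arrangement is central, essential and indecomposable, and for every smooth compactly
supported `φ`, the archimedean zeta function `Z_{f,φ}` continues meromorphically past
`-3/d = -1/3`, is holomorphic at `-3/d`, and `-3/d` is not a pole of any meromorphic continuation
of `Z_{f,φ}` to `ℂ`. -/
theorem result :
    ∃ A : MultiArrangement 3,
      A.poly = X 0 * X 2 * (X 0 - X 2) * X 1 ^ 2 * (X 0 - X 1) ^ 4 ∧ A.deg = 9 ∧
      A.Central ∧ A.Essential ∧ ¬ A.Decomposable ∧
      ∀ φ : (Fin 3 → ℂ) → ℂ, ContDiff ℝ ∞ φ → HasCompactSupport φ →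
        HolomorphicAt (archZeta A.poly φ) (-(3 : ℂ) / A.deg) ∧
        ¬ IsPole (archZeta A.poly φ) (-(3 : ℂ) / A.deg) :=
  ⟨ex, ex_poly, ex_deg, ex_central, ex_essential, ex_indecomposable, fun _ hφ hc =>
    ⟨ex_holomorphic hφ hc, (ex_holomorphic hφ hc).not_isPole⟩⟩

end Pool.Agent.Results.MP_cf8c5a_ag.NotAPole
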